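import Mathlib
import Pool.Agent.L7h89.SS.Main
import Pool.Agent.Y1.KN.All
import Pool.Agent.Y1.TS.Angle

/-!
# Semisimplicity is multiplicative for almost all slope types of all CM fields

Let `K i` (`i` in a finite set) be CM fields of degree `2 g i`. Nothing is assumed about their Galois
groups. They are pairwise independent: for `i ≠ k` and all complex embeddings `φ` of `K i` and `ψ` of
`K k` some automorphism of `ℂ` is the identity on `φ (K i)` and the complex conjugation on `ψ (K k)`
(this is no condition if there is only one field). We fix an isomorphism `ν` of the algebraic closure
of `ℚ_p` with `ℂ`; it defines a `p`-adic valuation of `ℂ`, with the value one at `p`. Let `M i` be a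
function with nonzero integral values, all of which divide `n i`, on the complex embeddings of
`K i`, invariant under complex conjugation. A CM type `Φ i` of `K i` (a choice of one element out of
each complex conjugate pair of embeddings; there are `2 ^ (g i)` types), `M i` and a real number
`κ ≠ 0` prescribe the slopes `(a + κ M) / 2` (at the embeddings in `Φ i`) and `(a - κ M) / 2` (outside
of `Φ i`) of a Weil number for `p ^ a` in `K i` (`HasType`). If `p` splits completely in `K i` then,
by Honda and Tate, all slopes with rational values between `0` and `a` that are symmetric in this way
occur for abelian varieties over finite fields. The case `M = 1`, `κ = a` is the case of ordinary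
abelian varieties; the assumption on `M` says that `a / 2` is not a slope.

There are `2 ^ (∑ i, g i)` families of CM types `Φ i` of the fields `K i`. A family is exceptional
(`exceptionalFamilies ν K M`) if the following statement (`Holds`) is false for it. Let `π i` be Weil
numbers for `q = p ^ a` which generate the fields `K i` and have the slope types `Φ i`, `M i`; let
`Q = q ^ s`, `s > 0`, and let `X` and `U` be **arbitrary varieties** (singular, not proper) over the field
with `Q` elements such that

* the eigenvalues of Frobenius on the cohomology with compact supports of `X` of degree `n` are of
  the form `Q ^ j * ∏ φ_l (π (i_l)) ^ s` with `k` complex embeddings `φ_l` and `2 j + k ≤ n` (`OfType`).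
  For example all products of abelian varieties over the field with `Q` elements which come from the
  field with `q` elements and have the Weil numbers `π i`, of their powers, and of the curves whose
  Jacobians are isogenous to products of such abelian varieties; the symmetric powers of these
  curves; all varieties with a stratification by open subvarieties of such varieties whose boundary
  is of the same type, and so on;
* the eigenvalues `ρ` of Frobenius on the cohomology with compact supports of `U` are unrelated to
  the fields `K i` (`UnrelatedTo`): a function `n` on the complex embeddings of `K i` with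
  `n (conj φ) = - n φ` which is invariant under all automorphisms of `ℂ` that fix a power of `ρ` is
  zero. This is so if for each embedding `ψ` of `K i` some automorphism which fixes a power of `ρ` is
  the complex conjugation on `ψ (K i)`: for instance, if a power of `ρ` lies in a field linearly
  disjoint from the normal closures of the `K i`, or in a totally real field. It is also so if the
  degree of `ρ` (which is at most the Betti number) is less than twice the dimension of each nonzero
  space of functions `n` stable under all automorphisms of `ℂ` (less than `2 g i` if this representation
  is irreducible, as it is for generic CM fields). The weights of the cohomology with compact supports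
  of degree `m` are at most `m` (Deligne).

Then (`SemisimplicityIsMultiplicative`)

* the generalised eigenspace of Frobenius for `Q ^ c` on the cohomology with compact supports of
  degree `2 c` of `X × U` is the sum of the tensor products of the generalised eigenspaces for
  `Q ^ d` and `Q ^ b` in the degrees `2 d` and `2 b` of `X` and `U`, `d + b = c`;
* `SS_c (X × U)` holds if and only if `SS_d (X)` and `SS_b (U)` hold for all `d + b = c` such that `Q ^ d`
  and `Q ^ b` are eigenvalues in the degrees `2 d` and `2 b` for `X` and `U`;
* **`SS_c (X × U)` holds for all `c` if and only if `SS_d (X)` and `SS_b (U)` hold for all `d` and `b`** (for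
  nonempty `X` and `U`: then there are such eigenvalues in the top degrees);
* for all abelian varieties `A` with the Weil numbers `π i` (as above) and all varieties `U` with
  unrelated eigenvalues, **`SS_c (A × U)` holds for all `c` if and only if `SS_b (U)` holds for all `b`**
  (here nothing is assumed on the weights).

Since the homology is dual to the cohomology with compact supports, `SS_i` is the semisimplicity of
the eigenvalue `Q ^ i` on the cohomology with compact supports of degree `2 i`. As `s` is arbitrary this
applies to all finite extensions. These statements are not formal: the semisimplicity of the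
eigenvalue `Q ^ c` for `X × U` involves all eigenvalues `μ` of `X` and `ρ` of `U` with `μ ρ = Q ^ c`, and
says nothing on `SS` for the factors if `U` has eigenvalues which are related to those of `X`, and
conversely `SS` for the factors does not give `SS` for the product.

The theorem bounds the number of the exceptional families: it is at most
`2 ^ (∑ i, g i) * ∑ i, C * (n i) ^ 2 * rate (K i) (g i) (q i)`, with an absolute constant `C`. Here
`q i` is any prime factor of `g i` (or `q i = 1`), and `rate K g q` is `(1 + log (2 g)) ^ 16` times
the smaller of the numbers

* `W (K) / √g`, where (second part of the theorem, `WeightEstimate`) `W (K) ≤ N ^ 2 * D ^ (1 / 4)`;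
  `N` is the number of the CM subfields of `K` (with `K`) and `D` is the largest degree of a CM
  subfield of `K` that is normal over `ℚ` with a nonabelian Galois group (`D = 1` if there are none);
* `√g / q`.

So the exceptional types are a proportion `O (n ^ 2 * g ^ (-1 / 4) * (log g) ^ 16)` of all types of
all CM fields with a bounded number of CM subfields, and `O (n ^ 2 * g ^ (-1 / 2) * (log g) ^ 16)` if
the normal nonabelian ones have bounded degrees. And they are a proportion
`O (n ^ 2 * g ^ (-δ) * (log g) ^ 16)` of the types of all CM fields `K`, with any number of subfields,
whose degree is divisible by a prime number `q ≥ g ^ (1 / 2 + δ)`. The counting part of the theorem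
(the bound for the number of the degenerate types) is the one of `AllCMFields` (MP_e12fcd_ag), by
helper1 and others; new here are the semisimplicity for the arbitrary varieties `X` of the given type
and arbitrary varieties `U`, and the description of the generalised eigenspaces. The earlier results on this
problem are about abelian varieties (or families) with large Galois groups and varieties `U` of small
rank; here the Galois groups of the fields `K i` are arbitrary, the degree `2 g i` is fixed and `p ^ a` is
arbitrary, there is no condition on the rank, and `X` may be singular or not proper.
-/

set_option autoImplicit false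

namespace Pool.Agent.Results.MP_16ef92_ag.AllCMTypesTimesAnyVariety

open NumberField Module IntermediateField Pool.Agent.H204R3.CM Pool.Agent.H977R3.CM
  Pool.Agent.TH170 Pool.Agent.TH170.FW Pool.Agent.Y1.KN Pool.Agent.Y1.CT Pool.Agent.L7h89.SS

/-- Semisimplicity is multiplicative for the products `X × U`, for all Weil numbers `π i` with the
slope types `Φ i`, `M i`, all varieties `X` with eigenvalues generated by the `π i` and all varieties
`U` with eigenvalues unrelated to the fields `K i`. -/
def Holds {p : ℕ} [Fact p.Prime] (ν : PadicAlgCl p ≃+* ℂ) {I : Type}
    (K : I → Type) [∀ i, Field (K i)] [∀ i, NumberField (K i)] [∀ i, IsCMField (K i)]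
    (M : ∀ i, (K i →+* ℂ) → ℤ) (Φ : ∀ i, Set (K i →+* ℂ)) : Prop :=
  ∀ (a : ℕ) (π : ∀ i, K i), 0 < a → (∀ i, Pool.Agent.Y1.CT.HasType ν a (M i) (Φ i) (π i)) →
    SemisimplicityIsMultiplicative p a K π

/-- The exceptional families of CM types. -/
def exceptionalFamilies {p : ℕ} [Fact p.Prime] (ν : PadicAlgCl p ≃+* ℂ) {I : Type}
    (K : I → Type) [∀ i, Field (K i)] [∀ i, NumberField (K i)] [∀ i, IsCMField (K i)]
    (M : ∀ i, (K i →+* ℂ) → ℤ) : Set (∀ i, Set (K i →+* ℂ)) :=
  {Φ | (∀ i, IsCMType (Φ i)) ∧ ¬ Holds ν K M Φ}

/-- **Semisimplicity is multiplicative for the products of the varieties of abelian type, for almost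
all slope types of all CM fields, with all unrelated varieties.** -/
theorem result :
    (∃ C : ℝ, 0 ≤ C ∧ ∀ (p : ℕ) [Fact p.Prime] (ν : PadicAlgCl p ≃+* ℂ) (I : Type) [Fintype I]
      (K : I → Type) [∀ i, Field (K i)] [∀ i, NumberField (K i)] [∀ i, IsCMField (K i)]
      (M : ∀ i, (K i →+* ℂ) → ℤ) (n g q : I → ℕ), PairwiseIndep K →
      (∀ i φ, M i (ComplexEmbedding.conjugate φ) = M i φ) → (∀ i, n i ≠ 0) →
      (∀ i φ, M i φ ∣ (n i : ℤ)) → (∀ i, finrank ℚ (K i) = 2 * g i) →
      (∀ i, q i ∣ g i ∧ (q i = 1 ∨ (q i).Prime)) →
      ((exceptionalFamilies ν K M).ncard : ℝ) ≤
        2 ^ (∑ i, g i) * ∑ i, C * (n i : ℝ) ^ 2 * rate (K i) (g i) (q i)) ∧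
    WeightEstimate := by
  obtain ⟨C, hC0, hC⟩ := families_holds
  refine ⟨⟨C, hC0, ?_⟩, weight_estimate_holds⟩
  intro p _ ν I _ K _ _ _ M n g q hind hM hn hMn hg hq
  refine hC I K M n g q hM hn hMn hg hq (Holds ν K M) fun Φ hΦ hnd => ?_
  intro a π ha hπ
  exact multiplicative ha (fun i => (hπ i).weil) (Pool.Agent.Y1.TS.angle_types hind hM hΦ hnd hπ)

end Pool.Agent.Results.MP_16ef92_ag.AllCMTypesTimesAnyVariety
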