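import Pool.Agent.L7h89.SS.Defect

/-!
# Frobenius is semisimple if the Tate conjecture fails by at most two

Let `Z` be a smooth projective variety of dimension `n` over a finite field with `q` elements and let
`2 j ≤ n`. By the theorem of Tate the eigenvalue `q ^ j` of Frobenius on the `ℓ`-adic cohomology of
degree `2 j` is semisimple if its multiplicity (the order of the pole of the zeta function at `j`) is
equal to the rank of the group of the algebraic cycles of codimension `j` modulo numerical
equivalence. We show that this is still true if the multiplicity is larger than the rank by **at most
two**, and describe what happens otherwise. No conjecture is assumed, and nothing is assumed on `Z`.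

Let `m` be the multiplicity `mult` of the eigenvalue `q ^ j` on `H^(2 j)` (the dimension of the
generalised eigenspace `genTate`; by Deligne `m` is the order of the pole of the zeta function of `Z` at `j`), `t`
the dimension `tateDim` of the space of the Tate classes (`tateAt`: the classes in `H^(2 j)` on which Frobenius
acts as multiplication by `q ^ j`), and `r` the rank (`algRank`) of the form
`(x, y) ↦ tr (ξ ^ (n - 2 j) x y)` on the space of the classes of algebraic cycles defined over the field
with `q` elements. Here `ξ` is the class of an ample divisor `D` defined over this field, for which we
need the theorem of Lefschetz (Deligne). For `2 j = n` nothing is needed, and over all large finite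
fields `r` is the rank `numRank` of the group of the cycles of codimension `j` modulo numerical
equivalence. For `j = 1` the number `r` is the Picard number of `Z`, by the index theorem of Hodge.
Always `r ≤ t ≤ m`.

**Theorem.** Either the eigenvalue `q ^ j` on `H^(2 j)` and the eigenvalue `q ^ (n - j)` on
`H^(2 (n - j))` are semisimple (that is, `SS_j (Z)` and `SS_(n - j) (Z)` hold), or `t < m`, the
difference `m - t` is even and `r < t`. In particular **`SS_j (Z)` and `SS_(n - j) (Z)` hold if
`m ≤ r + 2`.** In the middle dimension `n = 2 j`: if the multiplicities of the eigenvalue `q ^ j` over all
finite fields of definition are at most `numRank + 2` then `SS_j` holds for `Z` over all these fields.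

For example, let `Z` be a surface for which the order of the pole of the zeta function at `s = 1` is at
most the Picard number plus two, although it is not known whether it is equal to the Picard number.
Then the eigenvalue `q` is semisimple, for all `ℓ` (the numbers `m` and `r` do not depend on `ℓ`). The
conclusion holds for all varieties `U` (singular, not proper) such that the part of weight zero of
`H_(2 i) (U) (i)` is a quotient of the one of such a `Z`; by the theorem of de Jong the part of weight
zero is always a quotient of the one of some smooth projective variety.

The proof. By the theorem of Lefschetz and Poincaré duality, the form is symmetric and nondegenerate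
on the generalised eigenspace `V`, and `u = q ^ (-j) F` is a unipotent isometry of `V`. The form
`(x, y) ↦ φ (u x, y) - φ (x, u y) = φ ((u - 1) x, (u + 1) y)` is alternating with kernel
`ker (u - 1)`. So `dim V - dim ker (u - 1)` is even. If `u ≠ 1` then there is a nonzero vector in the
intersection of the kernel and the image of `u - 1`; it is orthogonal to `ker (u - 1)`. If `r` were
the dimension of `ker (u - 1)`, this kernel would consist of algebraic classes, and the form would be
nondegenerate on it: a contradiction.

The framework is the one of the starting files (`W534`): varieties over an algebraic closure of the
field with `p` elements, a Weil cohomology theory with a system of Frobenius endomorphisms;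
`genTate Φ Z s j` is the generalised eigenspace in `H^(2 j)` of the Frobenius endomorphism of the model
of `Z` over the field with `card Φ Z s` elements for the eigenvalue `(card Φ Z s) ^ j`.
-/

set_option autoImplicit false

open CategoryTheory AlgebraicGeometry

universe u v

namespace Pool.Agent.Results.MP_16ef92_ag.DefectAtMostTwo

open Pool.Agent.H914 Pool.Agent.W534 Pool.Agent.L7h89.SS VarClass Obj WeilCohomology Module

/-- **Frobenius is semisimple if the Tate conjecture fails by at most two.** -/
theorem result {k : Type u} [Field k] {𝒱 : VarClass k} {ops : CycleOps 𝒱}
    (W : WeilCohomology.{u, v} ops) (p : ℕ) (Φ : FrobSystem W p) (Z : 𝒱.Obj) (j : ℕ) :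
    (∀ (D : Z.Cycles) (s : ℕ), Polarises Φ Z D s j → SemisimpleOrLargeDefect Φ Z D s j) ∧
    (2 * j = Z.dim →
      (∀ s, 0 < s → mult Φ Z s j ≤ numRank ops Z j + 2) →
        ∀ s, 0 < s → SemiAt Φ Z s j) := by
  refine ⟨fun D s h => ?_, fun hj h => semi_middle hj h⟩
  by_cases hss : SemiAt Φ Z s j
  · have hle := h.le
    exact Or.inl ⟨hss, semiAt_dual (show j + (Z.dim - j) = Z.dim by omega) hss⟩
  · obtain ⟨⟨e, he⟩, h2⟩ := not_semi h hss
    exact Or.inr ⟨e, he, h2⟩

end Pool.Agent.Results.MP_16ef92_ag.DefectAtMostTwo
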