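import Mathlib
import Pool.Agent.L7h89.SS.Main
import Pool.Agent.Q29.EP.Rows
import Pool.Agent.Q29.DP.Deg
import Pool.Agent.Y1.TS.Angle

/-!
# Semisimplicity is multiplicative for one half of all slope types of every CM field of degree
`2 r ^ k`

Let `K i` (`i` in a finite set) be CM fields of degree `2 g i` which are pairwise independent: for
`i ≠ k` and all complex embeddings `φ` of `K i` and `ψ` of `K k` some automorphism of `ℂ` is the
identity on `φ (K i)` and the complex conjugation on `ψ (K k)` (this is no condition if there is
only one field).

We fix an isomorphism `ν` of the algebraic closure of `ℚ_p` with `ℂ`; it defines a `p`-adic
valuation of `ℂ`, with the value one at `p`. Let `M i` be a function with integral values on the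
complex embeddings of `K i`, invariant under complex conjugation (the weights). A CM type `Φ i` of
`K i` (a choice of one element out of each complex conjugate pair of embeddings), `M i` and a real
number `κ ≠ 0` prescribe the slopes `(a + κ M) / 2` (at the embeddings in `Φ i`) and `(a - κ M) / 2`
(outside of `Φ i`) of a Weil number for `p ^ a` in `K i` (`HasType`). If `p` splits completely in
`K i` then, by Honda and Tate, all rational slopes between `0` and `a` that are symmetric in this way
occur for abelian varieties over finite fields. The case `M = 1`, `κ = a` is the ordinary case.

**The property of the slope types** (`Semisimplicity`). Let `π i` be Weil numbers for `q = p ^ a`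
in the fields `K i` with the slope types `Φ i`, `M i`; let `Q = q ^ s`, `s > 0`, and let `X` and `U` be
**arbitrary varieties** (singular, not proper) over the field with `Q` elements such that

* the eigenvalues of Frobenius on the cohomology with compact supports of `X` of degree `n` are of
  the form `Q ^ j * ∏ φ_l (π (i_l)) ^ s` with `k` complex embeddings `φ_l` and `2 j + k ≤ n` (`OfType`).
  For example all products of abelian varieties over the field with `Q` elements which come from the
  field with `q` elements and have the Weil numbers `π i`, of their powers, and of the curves whose
  Jacobians are isogenous to products of such abelian varieties; the symmetric powers of these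
  curves; all varieties with a stratification by open subvarieties of such varieties whose boundary
  is of the same type, and so on;
* the eigenvalues `ρ` of Frobenius on the cohomology with compact supports of `U` are unrelated to
  the fields `K i` (`Unrelated`): a function `n` on the complex embeddings of `K i` with
  `n (conj φ) = - n φ` which is invariant under all automorphisms of `ℂ` that fix a power of `ρ` is
  zero. This is so if for each embedding `ψ` of `K i` some automorphism which fixes a power of `ρ` is
  the complex conjugation on `ψ (K i)`: for instance, if a power of `ρ` lies in a field linearly
  disjoint from the normal closures of the `K i`, or in a totally real field. The weights of the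
  cohomology with compact supports of degree `m` are at most `m` (Deligne).

Then (`SemisimplicityIsMultiplicative`)

* the generalised eigenspace of Frobenius for `Q ^ c` on the cohomology with compact supports of
  degree `2 c` of `X × U` is the sum of the tensor products of the generalised eigenspaces for
  `Q ^ d` and `Q ^ b` in the degrees `2 d` and `2 b` of `X` and `U`, `d + b = c`;
* `SS_c (X × U)` holds if and only if `SS_d (X)` and `SS_b (U)` hold for all `d + b = c` such that `Q ^ d`
  and `Q ^ b` are eigenvalues in the degrees `2 d` and `2 b` for `X` and `U`;
* **`SS_c (X × U)` holds for all `c` if and only if `SS_d (X)` and `SS_b (U)` hold for all `d` and `b`** (for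
  nonempty `X` and `U`: then there are such eigenvalues in the top degrees);
* for all abelian varieties `A` with the Weil numbers `π i` (as above) and all varieties `U` with
  unrelated eigenvalues, **`SS_c (A × U)` holds for all `c` if and only if `SS_b (U)` holds for all `b`**
  (here nothing is assumed on the weights).

Since the homology is dual to the cohomology with compact supports, `SS_i` is the semisimplicity of
the eigenvalue `Q ^ i` on the cohomology with compact supports of degree `2 i`. As `s` is arbitrary
this applies to all finite extensions.

**The theorem.** Let `E` be **any CM field of degree `2 g = 2 r ^ k`**, `r` a prime number, of
degree at least `16` if `r = 2`. Nothing is assumed about the Galois group of the normal closure of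
`E`, and nothing about the subfields of `E`.

* (`HalfOfAll`) For all weights `M` (odd if `r = 2`; if `r` is odd then `r` may divide some, but not
  all of them) the property is true for **at least one half of all `2 ^ g` slope types** of `E`.
* (`MostWithWeightsOne`) For the weights `M = 1` (for instance in the ordinary case) it is true for
  at least `(1 - 1 / r) 2 ^ g` of the types.
* (`OneOfTwo`) There is a set `B` of embeddings of `E`, stable under complex conjugation, such that
  for **every** type `Φ` it is true for `Φ` or for the symmetric difference of `Φ` and `B`.
* (`SixteenPercent`) There is a number `g₀` such that for every CM field that is **abelian over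
  `ℚ`**, of any degree `2 g ≥ 2 g₀`, and all odd weights it is true for at least 16 percent of all
  `2 ^ g` types; again nothing is assumed on the subfields.

All this is proved for finitely many pairwise independent fields `K i`; the proportions are then
multiplied. In the definitions of these four statements (`Pool.Agent.Q29.EP.RowsDefs`, starting
files) the property of the families of slope types is an argument.

**Comparison.** `AllCMTypesTimesAnyVariety` (helper89) is the same property for almost all slope
types of the CM fields with few CM subfields, or whose degree has a large prime factor. It gives
nothing for the fields of 2-power degree with many CM subfields, for instance for the multiquadratic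
fields: for them one half is the best possible proportion of the types without relations if `M = 1`.
The statement that these slope types have no relations is the library `Pool.Agent.Q29` of the
starting files, which so far was applied to the conjecture of Parshin only; the reduction of the
semisimplicity to the absence of relations is the library of helper89.
-/

set_option autoImplicit false

namespace Pool.Agent.Results.MP_16ef92_ag.HalfOfAllTypesTimesAnyVariety

open NumberField Module Pool.Agent.H204R3.CM Pool.Agent.H977R3.CM Pool.Agent.Q29.EP
  Pool.Agent.Q29.DP Pool.Agent.L7h89.SS

/-- Semisimplicity is multiplicative for the products `X × U`, for all Weil numbers `π i` with the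
slope types `Φ i`, `M i`, all varieties `X` with eigenvalues generated by the `π i` and all varieties
`U` with eigenvalues unrelated to the fields `K i`. -/
def Semisimplicity : TypeProperty := fun p _ ν _ _ K _ _ _ M Φ =>
  ∀ (a : ℕ) (π : ∀ i, K i), 0 < a → (∀ i, Pool.Agent.Y1.CT.HasType ν a (M i) (Φ i) (π i)) →
    SemisimplicityIsMultiplicative p a K π

theorem semisimplicity_without : WithoutRelations Semisimplicity := by
  intro p _ ν I _ K _ _ _ M Φ hind hM hΦ hno a π ha hπ
  exact multiplicative ha (fun i => (hπ i).weil) (Pool.Agent.Y1.TS.angle_types hind hM hΦ
    (fun i => notMem_degTypes_of_noRelations (hno i)) hπ)

/-- **Semisimplicity is multiplicative for the products of the varieties of abelian type, for one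
half of all slope types of every CM field of degree `2 r ^ k`, with all unrelated varieties.** -/
theorem result : HalfOfAll Semisimplicity ∧ MostWithWeightsOne Semisimplicity ∧
    OneOfTwo Semisimplicity ∧ SixteenPercent Semisimplicity :=
  ⟨halfOfAll semisimplicity_without, mostWithWeightsOne semisimplicity_without,
    oneOfTwo semisimplicity_without, sixteenPercent semisimplicity_without⟩

end Pool.Agent.Results.MP_16ef92_ag.HalfOfAllTypesTimesAnyVariety
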