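import Pool.Agent.L7h85.SB.Laws

/-!
# MP_16ef92_ag: the number of Tate classes detects semisimplicity

Let `X` be **any** smooth projective variety of dimension `d` over an algebraic closure of a finite
field. For `n ≥ 0` let, in the middle codimension `(n + 1) d` of `X ^ (2 n + 2)`,

* `t n` be the dimension of the space of the Tate classes,
* `z n` the order of the pole of the zeta function at `(n + 1) d` (over all sufficiently large finite
  fields of definition), which is the multiplicity of the Frobenius eigenvalue `q ^ ((n + 1) d)`,
* `r n` the rank of the group of the algebraic cycles modulo numerical equivalence.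

So `r n ≤ t n ≤ z n`, and the conjectures of Tate and Beilinson say that equality holds.

**Theorem.** One of the following holds.

1. `SS_j (X ^ m)` holds for all `m`, all `j` and all fields of definition (the eigenvalue `q ^ j` of
   Frobenius on `H^(2 j)` is semisimple), and `t n = z n` for all `n`;
2. `SS_d (X × X)` is false for some field of definition, and there are `l > 0` and `c > 0` with

   `√(n + 1) t n / z n → l`, `r n ≤ z n / (c (n + 1) ^ (3 / 2))`, `r n ≤ t n / (c (n + 1))` for all `n`.

So the quotient `t n / z n` is equal to `1` for all `n` or it is asymptotically equal to `l / √n`. The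
semisimplicity of Frobenius for all powers of `X` in all degrees follows if one of the three sequences
`√n t n / z n`, `n √n r n / z n`, `n r n / t n` is unbounded; in particular from much less than the
formula of Tate `r n = z n`, which is known to imply it. The exponents `1 / 2`, `3 / 2` are the right
ones for representations of `SL_2` and its unipotent elements: the number of Jordan blocks of the
`n`-th tensor power of a nontrivial unipotent operator on a space of dimension `b` is asymptotically a
multiple of `b ^ n / √n`, and the number of the invariants of `SL_2` a multiple of `b ^ n / n ^ (3 / 2)`. In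
the former hand-in `NonsemisimpleGrowth` the bounds for `r n` had a power of `log n` and there was no
asymptotic formula for `t n`.

The proof. By the theorem of Clebsch and Gordan, `t n` is the number of the words of length `2 n + 2` in
pairs (eigenvalue, weight) with product of eigenvalues `q ^ ((n + 1) d)` up to roots of unity and total
weight `0` or `1`, and `z n` the same number without the condition on the weight; both are numbers of
walks in finitely generated abelian groups, of ranks `ρ + 1` and `ρ`, which end at given points, and
the local limit theorem gives the asymptotics. For `r n`: if Frobenius is not semisimple on a summand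
`U` of the motive of `X`, then the number of endomorphisms modulo numerical equivalence of `U ^ ⊗ n` is
at most `C (dim U) ^ (2 n) / n ^ (3 / 2)`, and such a summand has a positive proportion in almost all
words in the summands.

The setting is that of the starting files: `W` is a Weil cohomology theory on a class of smooth proper
varieties closed under products, `Φ` the system of Frobenius endomorphisms; `RiemannHyp Φ σ X` says that
the eigenvalues of Frobenius on `H^i(X)` have the absolute value `q ^ (i / 2)`, this is a condition on the
variety `X` only (all smooth projective varieties satisfy it, by the theorem of Deligne; nothing is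
assumed for other varieties); `pw X m = X ^ (m + 1)`, `sq X n = X ^ (2 n + 2)`.
-/

set_option autoImplicit false

open CategoryTheory AlgebraicGeometry Filter Topology

universe u v

namespace Pool.Agent.Results.MP_16ef92_ag.JordanBlockLaw

open Pool.Agent.H914 Pool.Agent.H447 Pool.Agent.W534 Pool.Agent.Y163 VarClass Obj WeilCohomology
open Pool.Agent.L7h89.SS
open Pool.Agent.L7h85.PW (tateNum)

/-- **The law of the Jordan blocks.** Let `t n`, `z n`, `r n` be the dimension of the span of the Tate
classes, the order of the pole of the zeta function and the rank of the group of cycles modulo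
numerical equivalence in the middle codimension of `sq X n = X ^ (2 n + 2)`. Either the eigenvalue
`q ^ j` of Frobenius is semisimple on `H^(2 j)` of all powers of `X`, for all `j` and all fields of
definition, and `t n = z n` for all `n`; or it is not semisimple on `H^(2 dim X)(X × X)` over some field
of definition, `√(n + 1) t n / z n` tends to some `l > 0`, and `c (n + 1) ^ (3 / 2) r n ≤ z n`,
`c (n + 1) r n ≤ t n` for all `n`, for some `c > 0`. -/
theorem result {k : Type u} [Field k] {𝒱 : VarClass k} {ops : CycleOps 𝒱}
    (W : WeilCohomology.{u, v} ops) [IsAlgClosed W.K] (σ : W.K →+* ℂ) (p : ℕ) (hp : p.Prime)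
    (Φ : FrobSystem W p) (X : 𝒱.Obj) (hRH : RiemannHyp Φ σ X)
    [Nontrivial (W.H X)] :
    ∃ t z r : ℕ → ℕ,
      (∀ n, t n = tateNum Φ (sq X n) ((n + 1) * X.dim)) ∧
      (∀ n, PoleOrderIs Φ σ (sq X n) ((n + 1) * X.dim) (z n)) ∧
      (∀ n, r n = numRank ops (sq X n) ((n + 1) * X.dim)) ∧
      (∀ n, 0 < r n ∧ r n ≤ t n ∧ t n ≤ z n) ∧
      (((∀ m s j, SemiAt Φ (pw X m) s j) ∧ ∀ n, t n = z n) ∨
      ((∃ s, 0 < s ∧ ¬ SemiAt Φ (X.prod X) s X.dim) ∧
        (∃ l : ℝ, 0 < l ∧ Tendsto (fun n : ℕ => √((n : ℝ) + 1) * t n / z n) atTop (𝓝 l)) ∧
        ∃ c : ℝ, 0 < c ∧ ∀ n : ℕ, c * ((n : ℝ) + 1) ^ (3 / 2 : ℝ) * r n ≤ z n ∧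
          c * ((n : ℝ) + 1) * r n ≤ t n)) := by
  have : Fact p.Prime := ⟨hp⟩
  exact Pool.Agent.L7h85.SB.jordan_law_X hRH

end Pool.Agent.Results.MP_16ef92_ag.JordanBlockLaw
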